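import Mathlib
import Pool.Agent.H789R5.RF.Rank
import Pool.Agent.H283R2.DR.Glue

/-!
# The closure of a graph at a generic placement, growth along an order, symmetry
-/

set_option autoImplicit false
set_option linter.unusedSectionVars false

namespace Pool.Agent.Q231.CP

open Matrix Finset Pool.Agent.H283R2.DR Pool.Agent.H789R5

variable {V : Type} [Fintype V] {d : ℕ}

/-- The closure of `G` at the placement `p`: all pairs whose distance is kept to first order by all
motions of `G`. -/
def clo (G : SimpleGraph V) (p : V → Fin d → ℝ) : SimpleGraph V where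
  Adj x y := x ≠ y ∧ ∀ q, IsMotion G p q → (p x - p y) ⬝ᵥ (q x - q y) = 0
  symm := ⟨by
    rintro x y ⟨h, h'⟩
    refine ⟨h.symm, fun q hq => ?_⟩
    rw [← neg_sub (p x), ← neg_sub (q x), neg_dotProduct_neg]
    exact h' q hq⟩
  loopless := ⟨fun x h => h.1 rfl⟩

theorem le_clo (G : SimpleGraph V) (p : V → Fin d → ℝ) : G ≤ clo G p :=
  fun x y h => ⟨h.ne, fun _ hq => hq x y h⟩

theorem motion_clo {G : SimpleGraph V} {p q : V → Fin d → ℝ} (h : IsMotion G p q) :
    IsMotion (clo G p) p q := fun _ _ hxy => hxy.2 q h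

theorem mo_clo (G : SimpleGraph V) (p : V → Fin d → ℝ) : mo (clo G p) p = mo G p := by
  refine le_antisymm (mo_anti (le_clo G p) p) (Submodule.finrank_mono ?_)
  intro q hq
  rw [mem_mot] at *
  exact motion_clo hq

/-- the edges of `H` inside `U` -/
def res (H : SimpleGraph V) (U : Finset V) : SimpleGraph V where
  Adj x y := H.Adj x y ∧ x ∈ U ∧ y ∈ U
  symm := ⟨fun _ _ h => ⟨h.1.symm, h.2.2, h.2.1⟩⟩
  loopless := ⟨fun _ h => h.1.ne rfl⟩

theorem res_le_del [DecidableEq V] (H : SimpleGraph V) {U : Finset V} {v : V} (hv : v ∉ U) :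
    res H U ≤ (res H (insert v U)).deleteIncidenceSet v := by
  rintro x y ⟨h1, h2, h3⟩
  rw [SimpleGraph.deleteIncidenceSet_adj]
  exact ⟨⟨h1, mem_insert_of_mem h2, mem_insert_of_mem h3⟩, fun h => hv (h ▸ h2),
    fun h => hv (h ▸ h3)⟩

theorem step0 [DecidableEq V] {p : V → Fin d → ℝ} (hp : MG p) (H : SimpleGraph V) {U T : Finset V}
    {v : V} (hv : v ∉ U) (hT : T ⊆ U) (hTd : T.card ≤ d) (hTv : ∀ z ∈ T, H.Adj v z) :
    mo (res H (insert v U)) p + T.card ≤ mo (res H U) p := by
  refine (ext0 hp (res H (insert v U)) v T hTd ?_).trans (mo_anti (res_le_del H hv) p)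
  intro z hz
  exact ⟨hTv z hz, mem_insert_self _ _, mem_insert_of_mem (hT hz)⟩

theorem step1 [DecidableEq V] {p : V → Fin d → ℝ} (hp : MG p) (G : SimpleGraph V)
    {U N : Finset V} {v x y : V} (hv : v ∉ U) (hN : N ⊆ U) (hNd : N.card = d + 1)
    (hNv : ∀ z ∈ N, (clo G p).Adj v z) (hx : x ∈ N) (hy : y ∈ N) (hxy : x ≠ y)
    (hn : ¬ (clo G p).Adj x y) :
    mo (res (clo G p) (insert v U)) p + N.card ≤ mo (res (clo G p) U) p := by
  have h1 := ext1 hp (res (clo G p) (insert v U)) v N hNd
    (fun z hz => ⟨hNv z hz, mem_insert_self _ _, mem_insert_of_mem (hN hz)⟩) hx hy hxy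
  have h2 : mo ((res (clo G p) (insert v U)).deleteIncidenceSet v ⊔ SimpleGraph.edge x y) p ≤
      mo (res (clo G p) U ⊔ SimpleGraph.edge x y) p :=
    mo_anti (sup_le_sup_right (res_le_del _ hv) _) p
  have h3 : mo (res (clo G p) U ⊔ SimpleGraph.edge x y) p < mo (res (clo G p) U) p := by
    refine Submodule.finrank_lt_finrank_of_lt (lt_of_le_of_ne (mot_anti le_sup_left p) ?_)
    intro he
    apply hn
    refine ⟨hxy, fun q hq => ?_⟩
    have hq' : q ∈ Mot (res (clo G p) U) p := by
      rw [mem_mot]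
      exact fun a b hab => motion_clo hq a b hab.1
    rw [← he, mem_mot] at hq'
    exact hq' x y (by
      rw [SimpleGraph.sup_adj, SimpleGraph.edge_adj]
      exact Or.inr ⟨Or.inl ⟨rfl, rfl⟩, hxy⟩)
  rw [hNd]
  omega

/-- **Growth along an order.** -/
theorem growth {p : V → Fin d → ℝ} (hp : MG p) (G : SimpleGraph V) (ht : V → ℕ)
    (N : V → Finset V) (hlow : ∀ v, ∀ u ∈ N v, ht u < ht v)
    (hadj : ∀ v, ∀ u ∈ N v, (clo G p).Adj v u)
    (hN : ∀ v, (N v).card ≤ d ∨ (N v).card = d + 1 ∧
      ∃ x ∈ N v, ∃ y ∈ N v, x ≠ y ∧ ¬ (clo G p).Adj x y) :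
    mo G p + ∑ v, (N v).card ≤ d * Fintype.card V := by
  classical
  have key : ∀ s : Finset V, (∀ a ∈ s, N a ⊆ s) →
      mo (res (clo G p) s) p + ∑ v ∈ s, (N v).card ≤ d * Fintype.card V := by
    intro s
    induction s using Finset.induction_on_max_value ht with
    | empty =>
      intro _
      rw [sum_empty, add_zero]
      exact mo_le _ _
    | insert a s ha hmax ih =>
      intro hcl
      have hNa : N a ⊆ s := by
        intro u hu
        have h1 := hcl a (mem_insert_self _ _) hu
        rcases mem_insert.1 h1 with rfl | h2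
        · exact absurd (hlow u u hu) (lt_irrefl _)
        · exact h2
      have ih' := ih (by
        intro b hb u hu
        have h1 := hcl b (mem_insert_of_mem hb) hu
        rcases mem_insert.1 h1 with rfl | h2
        · have h3 := hlow b u hu
          have h4 := hmax b hb
          omega
        · exact h2)
      rw [sum_insert ha]
      have hstep : mo (res (clo G p) (insert a s)) p + (N a).card ≤ mo (res (clo G p) s) p := by
        rcases hN a with h | ⟨h, x, hx, y, hy, hxy, hn⟩
        · exact step0 hp _ ha hNa h (hadj a)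
        · exact step1 hp G ha hNa h (hadj a) hx hy hxy hn
      omega
  have h1 := key univ (fun a _ => subset_univ _)
  refine le_trans (Nat.add_le_add_right ?_ _) h1
  rw [← mo_clo G p]
  exact mo_anti (show res (clo G p) univ ≤ clo G p from fun x y h => h.1) p

/-! ### Circuits in the closure -/

theorem circuit_clo {p : V → Fin d → ℝ} (hp : MG p) (G : SimpleGraph V) (A : Finset V)
    (hA : A.card = d + 2) {x y : V} (hx : x ∈ A) (hy : y ∈ A) (hxy : x ≠ y)
    (hG : ∀ a ∈ A, ∀ b ∈ A, a ≠ b → ¬ (a = x ∧ b = y) → ¬ (a = y ∧ b = x) →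
      (clo G p).Adj a b) : (clo G p).Adj x y :=
  ⟨hxy, fun _ hq => circuit hp (clo G p) A hA hx hy hG (motion_clo hq)⟩

/-- a vertex with `d` neighbours in a clique of the closure -/
theorem attach {p : V → Fin d → ℝ} (hp : MG p) (G : SimpleGraph V) {U : Set V}
    (hU : ∀ a ∈ U, ∀ b ∈ U, a ≠ b → (clo G p).Adj a b) {v z : V} (hz : z ∈ U) (hvz : v ≠ z)
    {T : Finset V} (hT : d ≤ T.card) (hTU : ∀ a ∈ T, a ∈ U) (hTv : ∀ a ∈ T, (clo G p).Adj v a) :
    (clo G p).Adj v z := by
  classical
  obtain ⟨T', hT', hc⟩ := exists_subset_card_eq hT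
  by_cases hzT : z ∈ T'
  · exact hTv z (hT' hzT)
  · have hvT : v ∉ T' := fun h => (hTv v (hT' h)).ne rfl
    have hv2 : v ∉ insert z T' := by
      rw [mem_insert]
      rintro (h | h)
      · exact hvz h
      · exact hvT h
    refine circuit_clo hp G (insert v (insert z T')) ?_ (mem_insert_self _ _)
      (mem_insert_of_mem (mem_insert_self _ _)) hvz ?_
    · rw [card_insert_of_notMem hv2, card_insert_of_notMem hzT, hc]
    · intro a ha b hb hab h1 h2
      rw [mem_insert, mem_insert] at ha hb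
      rcases ha with rfl | rfl | ha
      · rcases hb with rfl | rfl | hb
        · exact absurd rfl hab
        · exact absurd ⟨rfl, rfl⟩ h1
        · exact hTv b (hT' hb)
      · rcases hb with rfl | rfl | hb
        · exact absurd ⟨rfl, rfl⟩ h2
        · exact absurd rfl hab
        · exact hU _ hz _ (hTU b (hT' hb)) hab
      · rcases hb with rfl | rfl | hb
        · exact (hTv a (hT' ha)).symm
        · exact hU _ (hTU a (hT' ha)) _ hz hab
        · exact hU _ (hTU a (hT' ha)) _ (hTU b (hT' hb)) hab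

theorem attach_two {p : V → Fin d → ℝ} (hp : MG p) (G : SimpleGraph V) {U : Set V}
    (hU : ∀ a ∈ U, ∀ b ∈ U, a ≠ b → (clo G p).Adj a b) {T : Finset V} (hT : d ≤ T.card)
    (hTU : ∀ a ∈ T, a ∈ U) {v w : V} (hvw : v ≠ w) (hv : ∀ z ∈ U, v ≠ z → (clo G p).Adj v z)
    (hw : ∀ z ∈ U, w ≠ z → (clo G p).Adj w z) : (clo G p).Adj v w := by
  by_cases hvU : v ∈ U
  · exact (hw v hvU hvw.symm).symm
  · have hwT : ∀ a ∈ insert v U, ∀ b ∈ insert v U, a ≠ b → (clo G p).Adj a b := by
      intro a ha b hb hab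
      rcases ha with rfl | ha
      · rcases hb with rfl | hb
        · exact absurd rfl hab
        · exact hv b hb hab
      · rcases hb with rfl | hb
        · exact (hv a ha hab.symm).symm
        · exact hU a ha b hb hab
    by_cases hwU : w ∈ U
    · exact hv w hwU hvw
    · refine (attach hp G hwT (Set.mem_insert _ _) hvw.symm hT
        (fun a ha => Set.mem_insert_of_mem _ (hTU a ha)) ?_).symm
      intro a ha
      exact hw a (hTU a ha) (fun h => hwU (h ▸ hTU a ha))

/-- if all pairs are in the closure then the graph is rigid -/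
theorem rigid_of_all {p : V → Fin d → ℝ} (hp : MG p) (G : SimpleGraph V)
    (h : ∀ x y, x ≠ y → (clo G p).Adj x y) : GenRigid d G := by
  classical
  refine ⟨p, fun q hq => ?_⟩
  obtain ⟨A, b, hA, hb⟩ := rigid_complete hp.toGen (⊤ : SimpleGraph V) Finset.univ (by
    intro u _ v _ huv
    simpa using huv) q (by
    intro u _ v _ huv
    exact (h u v huv).2 q hq)
  exact ⟨A, b, hA, fun v => hb v (by simp)⟩

/-! ### Symmetry -/

theorem mo_comap (G : SimpleGraph V) (φ : V ≃ V) (p : V → Fin d → ℝ) :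
    mo (G.comap φ) (p ∘ φ) = mo G p := by
  have h : (Mot G p).map (LinearEquiv.funCongrLeft ℝ (Fin d → ℝ) φ :
      (V → Fin d → ℝ) →ₗ[ℝ] (V → Fin d → ℝ)) = Mot (G.comap φ) (p ∘ φ) := by
    ext q
    rw [mem_mot]
    constructor
    · rintro ⟨q', hq', rfl⟩
      intro a b hab
      exact (mem_mot G p q').1 hq' _ _ hab
    · intro hq
      refine ⟨q ∘ φ.symm, ?_, ?_⟩
      · show _ ∈ Mot G p
        rw [mem_mot]
        intro a b hab
        have := hq (φ.symm a) (φ.symm b) (by simpa using hab)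
        simpa using this
      · funext a
        simp [LinearEquiv.funCongrLeft]
  unfold mo
  rw [← h]
  exact LinearEquiv.finrank_map_eq (LinearEquiv.funCongrLeft ℝ (Fin d → ℝ) φ) _

theorem mo_comap_gen {p : V → Fin d → ℝ} (hp : MG p) (G : SimpleGraph V) (φ : V ≃ V) :
    mo (G.comap φ) p = mo G p := by
  apply le_antisymm
  · rw [← mo_comap G φ p]
    exact hp.min _ _
  · have h := mo_comap G φ (p ∘ φ.symm)
    have e : (p ∘ φ.symm) ∘ φ = p := by
      funext a
      simp
    rw [e] at h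
    rw [h]
    exact hp.min _ _

theorem clo_iff {p : V → Fin d → ℝ} (G : SimpleGraph V) {x y : V} (hxy : x ≠ y) :
    (clo G p).Adj x y ↔ mo G p ≤ mo (G ⊔ SimpleGraph.edge x y) p := by
  constructor
  · intro h
    refine Submodule.finrank_mono ?_
    intro q hq
    rw [mem_mot] at *
    intro a b hab
    rw [SimpleGraph.sup_adj, SimpleGraph.edge_adj] at hab
    rcases hab with hab | ⟨⟨rfl, rfl⟩ | ⟨rfl, rfl⟩, -⟩
    · exact hq a b hab
    · exact h.2 q hq
    · exact h.symm.2 q hq
  · intro h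
    have h1 : Mot (G ⊔ SimpleGraph.edge x y) p = Mot G p :=
      Submodule.eq_of_le_of_finrank_le (mot_anti le_sup_left p) h
    refine ⟨hxy, fun q hq => ?_⟩
    have h2 : q ∈ Mot G p := (mem_mot G p q).2 hq
    rw [← h1, mem_mot] at h2
    exact h2 x y (by
      rw [SimpleGraph.sup_adj, SimpleGraph.edge_adj]
      exact Or.inr ⟨Or.inl ⟨rfl, rfl⟩, hxy⟩)

/-- the closure at a generic placement is invariant under the automorphisms of the graph -/
theorem clo_aut {p : V → Fin d → ℝ} (hp : MG p) (G : SimpleGraph V) (φ : V ≃ V)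
    (hφ : ∀ a b, G.Adj (φ a) (φ b) ↔ G.Adj a b) (x y : V) :
    (clo G p).Adj (φ x) (φ y) ↔ (clo G p).Adj x y := by
  by_cases hxy : x = y
  · subst hxy
    simp
  · have hxy' : φ x ≠ φ y := fun h => hxy (φ.injective h)
    rw [clo_iff G hxy, clo_iff G hxy']
    have e : (G ⊔ SimpleGraph.edge (φ x) (φ y)).comap φ = G ⊔ SimpleGraph.edge x y := by
      ext a b
      rw [SimpleGraph.comap_adj, SimpleGraph.sup_adj, SimpleGraph.sup_adj, SimpleGraph.edge_adj,
        SimpleGraph.edge_adj, hφ]
      simp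
    rw [← e, mo_comap_gen hp]

end Pool.Agent.Q231.CP
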