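import Mathlib
import Pool.Agent.Q231.CP.Growth

/-!
# Generic rigidity of hypercubes
-/

set_option autoImplicit false
set_option linter.unusedSectionVars false

namespace Pool.Agent.Q231.CP

open Matrix Finset Pool.Agent.H283R2.DR Pool.Agent.H789R5

/-- The hypercube on the set `κ`: the subsets of `κ`, adjacent if they differ in exactly one
element. -/
def cube (κ : Type) [DecidableEq κ] : SimpleGraph (Finset κ) where
  Adj A B := (symmDiff A B).card = 1
  symm := ⟨fun A B h => by rwa [symmDiff_comm]⟩
  loopless := ⟨fun A h => by simp at h⟩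

variable {κ : Type} [Fintype κ] [DecidableEq κ] {d : ℕ}

/-- translation by `C` -/
def trans (C : Finset κ) : Finset κ ≃ Finset κ where
  toFun A := symmDiff C A
  invFun A := symmDiff C A
  left_inv A := symmDiff_symmDiff_cancel_left C A
  right_inv A := symmDiff_symmDiff_cancel_left C A

theorem symmDiff_trans (C A B : Finset κ) :
    symmDiff (symmDiff C A) (symmDiff C B) = symmDiff A B := by
  rw [symmDiff_comm C A, symmDiff_assoc, symmDiff_symmDiff_cancel_left]

theorem clo_dist {p : Finset κ → Fin d → ℝ} (hp : MG p) {A B A' B' : Finset κ}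
    (h : (symmDiff A B).card = (symmDiff A' B').card) :
    (clo (cube κ) p).Adj A B ↔ (clo (cube κ) p).Adj A' B' := by
  have h1 : ∀ A B : Finset κ, (clo (cube κ) p).Adj A B ↔
      (clo (cube κ) p).Adj ∅ (symmDiff A B) := by
    intro A B
    have := clo_aut hp (cube κ) (trans A) (fun a b => by
      show (symmDiff (symmDiff A a) (symmDiff A b)).card = 1 ↔ (symmDiff a b).card = 1
      rw [symmDiff_trans]) A B
    rw [← this]
    show (clo (cube κ) p).Adj (symmDiff A A) (symmDiff A B) ↔ _
    rw [symmDiff_self]
    rfl
  rw [h1, h1 A' B']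
  generalize symmDiff A B = C at h
  generalize symmDiff A' B' = C' at h
  have e : {x // x ∈ C} ≃ {x // x ∈ C'} := Finset.equivOfCardEq h
  set π := e.extendSubtype with hπ
  have hmap : C.map π.toEmbedding = C' := by
    apply eq_of_subset_of_card_le
    · intro y hy
      obtain ⟨x, hx, rfl⟩ := mem_map.1 hy
      exact e.extendSubtype_mem x hx
    · rw [card_map, h]
  have := clo_aut hp (cube κ) (Equiv.finsetCongr π) (fun a b => by
    show (symmDiff (a.map π.toEmbedding) (b.map π.toEmbedding)).card = 1 ↔
      (symmDiff a b).card = 1
    rw [← card_map π.toEmbedding (s := symmDiff a b)]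
    have : (symmDiff a b).map π.toEmbedding =
        symmDiff (a.map π.toEmbedding) (b.map π.toEmbedding) := by
      rw [map_eq_image, map_eq_image, map_eq_image]
      exact image_symmDiff _ _ π.injective
    rw [this]) ∅ C
  rw [← this]
  show (clo (cube κ) p).Adj (Finset.map π.toEmbedding ∅) (C.map π.toEmbedding) ↔ _
  rw [hmap, map_empty]

theorem symmDiff_erase {A : Finset κ} {i : κ} (hi : i ∈ A) : symmDiff A (A.erase i) = {i} := by
  ext x
  rw [mem_symmDiff, mem_erase, mem_singleton]
  constructor
  · rintro (⟨h1, h2⟩ | ⟨h1, h2⟩)
    · by_contra h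
      exact h2 ⟨h, h1⟩
    · exact absurd h1.2 h2
  · rintro rfl
    exact Or.inl ⟨hi, fun h => h.1 rfl⟩

/-- the criterion -/
def Crit (d m : ℕ) : Prop :=
  d * 2 ^ m ≤ d * (d + 1) / 2 + ∑ w ∈ range (m + 1), m.choose w * min w (d + 1)

theorem all_closed {p : Finset κ → Fin d → ℝ} (hp : MG p) {j : ℕ} (hj : 3 ≤ j) (hdj : d ≤ j)
    (hlt : ∀ A B : Finset κ, A ≠ B → (symmDiff A B).card < j → (clo (cube κ) p).Adj A B)
    (K : Finset κ) : ∀ A ⊆ K, ∀ B ⊆ K, A ≠ B → (clo (cube κ) p).Adj A B := by
  induction K using Finset.induction_on with
  | empty =>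
    intro A hA B hB hAB
    exact absurd ((subset_empty.1 hA).trans (subset_empty.1 hB).symm) hAB
  | insert k K hk ih =>
    by_cases hK : (insert k K).card < j
    · intro A hA B hB hAB
      refine hlt A B hAB (lt_of_le_of_lt (card_le_card ?_) hK)
      intro x hx
      rw [mem_symmDiff] at hx
      rcases hx with hx | hx
      · exact hA hx.1
      · exact hB hx.1
    · rw [card_insert_of_notMem hk] at hK
      have hU : ∀ a ∈ {A : Finset κ | A ⊆ K}, ∀ b ∈ {A : Finset κ | A ⊆ K}, a ≠ b →
          (clo (cube κ) p).Adj a b := fun a ha b hb hab => ih a ha b hb hab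
      have hv : ∀ v ⊆ insert k K, ∀ z ∈ {A : Finset κ | A ⊆ K}, v ≠ z →
          (clo (cube κ) p).Adj v z := by
        intro v hv z hz hvz
        by_cases hkv : k ∈ v
        · have hS : v.erase k ⊆ K := by
            intro x hx
            rcases mem_insert.1 (hv (mem_of_mem_erase hx)) with h | h
            · exact absurd h (ne_of_mem_erase hx)
            · exact h
          refine attach hp _ hU hz hvz
            (T := (insert ∅ (K.image fun i => ({i} : Finset κ))).image
              (fun B => symmDiff (v.erase k) B)) ?_ ?_ ?_
          · rw [card_image_of_injective _ (fun B B' h => (symmDiff_right_injective _) h),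
              card_insert_of_notMem, card_image_of_injective _ singleton_injective]
            · omega
            · rw [mem_image]
              rintro ⟨i, -, hi⟩
              exact singleton_ne_empty i hi
          · intro a ha
            obtain ⟨B, hB, rfl⟩ := mem_image.1 ha
            show symmDiff (v.erase k) B ⊆ K
            have hBK : B ⊆ K := by
              rcases mem_insert.1 hB with rfl | hB
              · exact empty_subset _
              · obtain ⟨i, hi, rfl⟩ := mem_image.1 hB
                exact singleton_subset_iff.2 hi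
            intro x hx
            rw [mem_symmDiff] at hx
            rcases hx with hx | hx
            · exact hS hx.1
            · exact hBK hx.1
          · intro a ha
            obtain ⟨B, hB, rfl⟩ := mem_image.1 ha
            have e1 : symmDiff v (symmDiff (v.erase k) B) = symmDiff {k} B := by
              rw [← symmDiff_assoc, symmDiff_erase hkv]
            have hkB : k ∉ B := by
              intro h
              rcases mem_insert.1 hB with rfl | hB
              · exact absurd h (notMem_empty k)
              · obtain ⟨i, hi, rfl⟩ := mem_image.1 hB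
                rw [mem_singleton] at h
                exact hk (h ▸ hi)
            refine hlt _ _ ?_ ?_
            · intro h
              have h1 : symmDiff v (symmDiff (v.erase k) B) = ∅ := by
                rw [← h, symmDiff_self]; rfl
              rw [e1] at h1
              have : k ∈ symmDiff {k} B := by
                rw [mem_symmDiff]
                exact Or.inl ⟨mem_singleton_self k, hkB⟩
              rw [h1] at this
              exact notMem_empty k this
            · rw [e1]
              refine lt_of_le_of_lt (card_le_card (t := {k} ∪ B) symmDiff_le_sup) ?_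
              refine lt_of_le_of_lt (card_union_le _ _) ?_
              rw [card_singleton]
              have : B.card ≤ 1 := by
                rcases mem_insert.1 hB with rfl | hB
                · simp
                · obtain ⟨i, hi, rfl⟩ := mem_image.1 hB
                  simp
              omega
        · refine ih v ?_ z hz hvz
          intro x hx
          rcases mem_insert.1 (hv hx) with h | h
          · exact absurd (h ▸ hx) hkv
          · exact h
      intro A hA B hB hAB
      refine attach_two hp _ hU (T := K.powerset) ?_ (fun a ha => mem_powerset.1 ha) hAB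
        (hv A hA) (hv B hB)
      rw [card_powerset]
      have : K.card < 2 ^ K.card := Nat.lt_two_pow_self
      omega

/-- the neighbours used for the growth along the cardinality -/
theorem exists_low {p : Finset κ → Fin d → ℝ} (hd : 1 ≤ d) {j : ℕ} (hj2 : 2 ≤ j)
    (hjd : j ≤ d + 1)
    (hlt : ∀ A B : Finset κ, A ≠ B → (symmDiff A B).card < j → (clo (cube κ) p).Adj A B)
    (hj : ∀ A B : Finset κ, (symmDiff A B).card = j → ¬ (clo (cube κ) p).Adj A B)
    (A : Finset κ) : ∃ N : Finset (Finset κ), (∀ B ∈ N, B.card < A.card) ∧
      (∀ B ∈ N, (clo (cube κ) p).Adj A B) ∧ N.card = min A.card (d + 1) ∧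
      (N.card ≤ d ∨ N.card = d + 1 ∧
        ∃ x ∈ N, ∃ y ∈ N, x ≠ y ∧ ¬ (clo (cube κ) p).Adj x y) := by
  have hne : ∀ i ∈ A, A ≠ A.erase i := fun i hi h => by
    have := mem_erase.1 (h ▸ hi : i ∈ A.erase i)
    exact this.1 rfl
  have hadj : ∀ i ∈ A, (clo (cube κ) p).Adj A (A.erase i) := by
    intro i hi
    refine hlt _ _ (hne i hi) ?_
    rw [symmDiff_erase hi, card_singleton]
    omega
  have hcard : ∀ I ⊆ A, (I.image fun i => A.erase i).card = I.card := by
    intro I hI
    refine card_image_of_injOn fun i hi i' hi' h => ?_
    exact erase_injOn A (hI hi) (hI hi') h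
  by_cases hA : A.card ≤ d
  · refine ⟨A.image fun i => A.erase i, ?_, ?_, ?_, ?_⟩
    · intro B hB
      obtain ⟨i, hi, rfl⟩ := mem_image.1 hB
      exact card_erase_lt_of_mem hi
    · intro B hB
      obtain ⟨i, hi, rfl⟩ := mem_image.1 hB
      exact hadj i hi
    · rw [hcard A subset_rfl]
      omega
    · rw [hcard A subset_rfl]
      exact Or.inl hA
  · obtain ⟨i0, hi0, b0, hb0, hib⟩ := one_lt_card.1 (show 1 < A.card by omega)
    have hA' : ((A.erase i0).erase b0).card = A.card - 2 := by
      rw [card_erase_of_mem (mem_erase.2 ⟨hib.symm, hb0⟩), card_erase_of_mem hi0]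
      omega
    obtain ⟨I', hI', hcI⟩ := exists_subset_card_eq
      (show d - 1 ≤ ((A.erase i0).erase b0).card by omega)
    obtain ⟨B', hB', hcB⟩ := exists_subset_card_eq
      (show j - 2 ≤ ((A.erase i0).erase b0).card by omega)
    have hi0I : i0 ∉ I' := fun h => (mem_erase.1 (mem_of_mem_erase (hI' h))).1 rfl
    have hb0I : b0 ∉ I' := fun h => (mem_erase.1 (hI' h)).1 rfl
    have hi0B : i0 ∉ B' := fun h => (mem_erase.1 (mem_of_mem_erase (hB' h))).1 rfl
    have hb0B : b0 ∉ B' := fun h => (mem_erase.1 (hB' h)).1 rfl
    have hI'A : insert i0 I' ⊆ A := by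
      intro x hx
      rcases mem_insert.1 hx with rfl | hx
      · exact hi0
      · exact mem_of_mem_erase (mem_of_mem_erase (hI' hx))
    have hB'A : insert b0 B' ⊆ A := by
      intro x hx
      rcases mem_insert.1 hx with rfl | hx
      · exact hb0
      · exact mem_of_mem_erase (mem_of_mem_erase (hB' hx))
    have hBc : (insert b0 B').card = j - 1 := by
      rw [card_insert_of_notMem hb0B, hcB]
      omega
    have hIc : (insert i0 I').card = d := by
      rw [card_insert_of_notMem hi0I, hcI]
      omega
    have hbn : b0 ∉ A \ insert b0 B' := by simp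
    have hnot : A \ insert b0 B' ∉ (insert i0 I').image fun i => A.erase i := by
      intro h
      obtain ⟨i, hi, hi'⟩ := mem_image.1 h
      apply hbn
      rw [← hi', mem_erase]
      refine ⟨?_, hb0⟩
      rintro rfl
      rcases mem_insert.1 hi with h | h
      · exact hib h.symm
      · exact hb0I h
    have hsd : symmDiff A (A \ insert b0 B') = insert b0 B' := by
      ext x
      rw [mem_symmDiff, mem_sdiff]
      have := @hB'A x
      tauto
    have hneB : A ≠ A \ insert b0 B' := by
      intro h
      apply hbn
      rw [← h]
      exact hb0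
    have hc : (insert (A \ insert b0 B') ((insert i0 I').image fun i => A.erase i)).card =
        d + 1 := by
      rw [card_insert_of_notMem hnot, hcard _ hI'A, hIc]
    refine ⟨insert (A \ insert b0 B') ((insert i0 I').image fun i => A.erase i),
      ?_, ?_, ?_, Or.inr ⟨hc, A.erase i0, ?_, A \ insert b0 B', mem_insert_self _ _, ?_, ?_⟩⟩
    · intro B hB
      rcases mem_insert.1 hB with rfl | hB
      · refine card_lt_card (sdiff_subset.ssubset_of_ne hneB.symm)
      · obtain ⟨i, hi, rfl⟩ := mem_image.1 hB
        exact card_erase_lt_of_mem (hI'A hi)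
    · intro B hB
      rcases mem_insert.1 hB with rfl | hB
      · refine hlt _ _ hneB ?_
        rw [hsd, hBc]
        omega
      · obtain ⟨i, hi, rfl⟩ := mem_image.1 hB
        exact hadj i (hI'A hi)
    · rw [hc]
      omega
    · exact mem_insert_of_mem (mem_image_of_mem _ (mem_insert_self _ _))
    · intro h
      apply hbn
      rw [← h]
      exact mem_erase.2 ⟨hib.symm, hb0⟩
    · apply hj
      have : symmDiff (A.erase i0) (A \ insert b0 B') = insert i0 (insert b0 B') := by
        ext x
        rw [mem_symmDiff, mem_sdiff, mem_erase, mem_insert (a := x) (b := i0)]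
        have h1 := @hB'A x
        by_cases hx : x = i0
        · subst hx
          have h2 : x ∉ insert b0 B' := by
            rw [mem_insert]
            rintro (h | h)
            · exact hib h
            · exact hi0B h
          tauto
        · tauto
      rw [this, card_insert_of_notMem, hBc]
      · omega
      · rw [mem_insert]
        rintro (h | h)
        · exact hib h
        · exact hi0B h

/-- **Hypercubes.** -/
theorem cube_rigid (hd : 1 ≤ d) (hdc : d ≤ 2 ^ Fintype.card κ) (hc : Crit d (Fintype.card κ)) :
    GenRigid d (cube κ) := by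
  classical
  obtain ⟨p, hp⟩ := exists_mg (Finset κ) d
  by_contra hnr
  have hex : ∃ j, ∃ A B : Finset κ, (symmDiff A B).card = j ∧ A ≠ B ∧
      ¬ (clo (cube κ) p).Adj A B := by
    by_contra h
    apply hnr
    refine rigid_of_all hp _ fun A B hAB => ?_
    by_contra h'
    exact h ⟨_, A, B, rfl, hAB, h'⟩
  obtain ⟨A0, B0, hc0, hAB0, hn0⟩ := Nat.find_spec hex
  have hmin := fun (m : ℕ) (h : m < Nat.find hex) => Nat.find_min hex h
  set j := Nat.find hex with hjdef
  have hlt : ∀ A B : Finset κ, A ≠ B → (symmDiff A B).card < j →
      (clo (cube κ) p).Adj A B := by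
    intro A B hAB h
    by_contra h'
    exact hmin _ h ⟨A, B, rfl, hAB, h'⟩
  have hj : ∀ A B : Finset κ, (symmDiff A B).card = j → ¬ (clo (cube κ) p).Adj A B := by
    intro A B h
    rw [clo_dist hp (h.trans hc0.symm)]
    exact hn0
  have hj0 : j ≠ 0 := by
    intro h
    rw [h, card_eq_zero] at hc0
    exact hAB0 (symmDiff_eq_bot.1 hc0)
  have hj1 : j ≠ 1 := by
    intro h
    rw [h] at hc0
    exact hn0 (le_clo (cube κ) p hc0)
  by_cases hcase : 3 ≤ j ∧ d ≤ j
  · exact hn0 (all_closed hp hcase.1 hcase.2 hlt univ A0 (subset_univ _) B0 (subset_univ _) hAB0)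
  · have h2 := exists_low (p := p) hd (j := j) (by omega) (by omega) hlt hj
    choose N hN1 hN2 hN3 hN4 using h2
    have hg := growth hp (cube κ) Finset.card N hN1 hN2 hN4
    apply hnr
    rw [genRigid_iff hp (by rw [Fintype.card_finset]; exact hdc)]
    rw [Fintype.card_finset] at hg
    have hsum : ∑ A : Finset κ, (N A).card =
        ∑ w ∈ range (Fintype.card κ + 1), (Fintype.card κ).choose w * min w (d + 1) := by
      rw [sum_congr rfl fun A _ => hN3 A]
      have := sum_powerset_apply_card (fun w => min w (d + 1)) (x := (univ : Finset κ))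
      rw [powerset_univ, card_univ] at this
      rw [this]
      exact sum_congr rfl fun w _ => by rw [smul_eq_mul]
    rw [hsum] at hg
    unfold Crit at hc
    omega

end Pool.Agent.Q231.CP
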