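import Mathlib
import Pool.Agent.Q231.CP.Growth
import Pool.Agent.Q231.CP.Cube

/-!
# Cartesian products of many connected graphs
-/

set_option autoImplicit false
set_option linter.unusedSectionVars false

namespace Pool.Agent.Q231.CP

open Matrix Finset Pool.Agent.H283R2.DR Pool.Agent.H789R5

/-- The cartesian product of a family of graphs: two points are adjacent if they are adjacent in
one coordinate and equal in all the others. -/
def cartesian {ι : Type} {W : ι → Type} (G : ∀ i, SimpleGraph (W i)) :
    SimpleGraph (∀ i, W i) where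
  Adj x y := ∃ i, (G i).Adj (x i) (y i) ∧ ∀ j, j ≠ i → x j = y j
  symm := ⟨fun _ _ ⟨i, h, h'⟩ => ⟨i, h.symm, fun j hj => (h' j hj).symm⟩⟩
  loopless := ⟨fun _ ⟨_, h, _⟩ => h.ne rfl⟩

theorem cube_closed {V : Type} [Fintype V] {d m : ℕ} {p : V → Fin d → ℝ} (hp : MG p)
    (G : SimpleGraph V) (hc : GenRigid d (cube (Fin m))) (e : Finset (Fin m) → V)
    (he : Function.Injective e) (hadj : ∀ A B, (cube (Fin m)).Adj A B → G.Adj (e A) (e B))
    {A B : Finset (Fin m)} (hAB : A ≠ B) : (clo G p).Adj (e A) (e B) := by
  classical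
  obtain ⟨p0, hp0⟩ := hc
  have h1 : RigidOn G (Set.range e) (fun v => if h : ∃ A, e A = v then p0 h.choose else 0) := by
    intro q hq
    have hpe : ∀ A, (fun v => if h : ∃ A, e A = v then p0 h.choose else (0 : Fin d → ℝ)) (e A) =
        p0 A := by
      intro A
      have h : ∃ A', e A' = e A := ⟨A, rfl⟩
      show (if h : ∃ A', e A' = e A then p0 h.choose else 0) = p0 A
      rw [dif_pos h]
      exact congrArg p0 (he h.choose_spec)
    obtain ⟨M, b, hM, hb⟩ := hp0 (fun A => q (e A)) (by
      intro A B h
      have := hq (e A) ⟨A, rfl⟩ (e B) ⟨B, rfl⟩ (hadj A B h)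
      rw [hpe, hpe] at this
      exact this)
    refine ⟨M, b, hM, ?_⟩
    rintro _ ⟨A, rfl⟩
    rw [hpe]
    exact hb A
  have h2 := hp.rigid G (Set.range e) _ h1
  refine ⟨fun h => hAB (he h), fun q hq => ?_⟩
  obtain ⟨M, b, hM, hb⟩ := h2 q (fun u _ v _ h => hq u v h)
  rw [hb _ ⟨A, rfl⟩, hb _ ⟨B, rfl⟩, add_sub_add_right_eq_sub, ← Matrix.mulVec_sub]
  exact skew_dot_self hM _

section

variable {ι : Type} [Fintype ι] [DecidableEq ι] {W : ι → Type} [∀ i, Fintype (W i)]
  [∀ i, DecidableEq (W i)]

/-- the point of a cube at `x` with the neighbours `n` -/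
def pt (x n : ∀ i, W i) (A : Finset ι) : ∀ i, W i := fun i => if i ∈ A then n i else x i

theorem pt_closed {d m : ℕ} {p : (∀ i, W i) → Fin d → ℝ} (hp : MG p)
    (G : ∀ i, SimpleGraph (W i)) (hc : GenRigid d (cube (Fin m))) {K : Finset ι}
    (hK : K.card = m) {x n : ∀ i, W i} (hn : ∀ i ∈ K, (G i).Adj (x i) (n i)) {A B : Finset ι}
    (hA : A ⊆ K) (hB : B ⊆ K) (hAB : A ≠ B) :
    (clo (cartesian G) p).Adj (pt x n A) (pt x n B) := by
  set g : K ≃ Fin m := K.equivFinOfCardEq hK with hg
  set f : Fin m ↪ ι := g.symm.toEmbedding.trans (Function.Embedding.subtype _) with hf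
  have hfK : ∀ a, f a ∈ K := fun a => (g.symm a).2
  have hex : ∀ A ⊆ K, ∃ A' : Finset (Fin m), A'.map f = A := by
    intro A hA
    refine ⟨univ.filter fun a => f a ∈ A, ?_⟩
    ext i
    rw [mem_map]
    constructor
    · rintro ⟨a, ha, rfl⟩
      exact (mem_filter.1 ha).2
    · intro hi
      have h1 : f (g ⟨i, hA hi⟩) = i := by simp [hf]
      exact ⟨g ⟨i, hA hi⟩, mem_filter.2 ⟨mem_univ _, by rw [h1]; exact hi⟩, h1⟩
  have hinj : Function.Injective (fun A : Finset (Fin m) => pt x n (A.map f)) := by
    intro A B h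
    apply map_injective f
    ext i
    have h1 := congrFun h i
    have hi : ∀ C : Finset (Fin m), i ∈ C.map f → i ∈ K := by
      intro C hC
      obtain ⟨a, -, rfl⟩ := mem_map.1 hC
      exact hfK a
    by_cases hiK : i ∈ K
    · have hne := (hn i hiK).ne
      simp only [pt] at h1
      split_ifs at h1 with h2 h3 h3
      · exact ⟨fun _ => h3, fun _ => h2⟩
      · exact absurd h1.symm hne
      · exact absurd h1 hne
      · exact ⟨fun h => absurd h h2, fun h => absurd h h3⟩
    · exact ⟨fun h => absurd (hi _ h) hiK, fun h => absurd (hi _ h) hiK⟩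
  obtain ⟨A', rfl⟩ := hex A hA
  obtain ⟨B', rfl⟩ := hex B hB
  refine cube_closed hp (cartesian G) hc (fun A => pt x n (A.map f)) hinj ?_
    (fun h => hAB (congrArg _ h))
  intro C D h
  have h' : (symmDiff C D).card = 1 := h
  obtain ⟨a, ha⟩ := card_eq_one.1 h'
  have haa : a ∈ symmDiff C D := by rw [ha]; exact mem_singleton_self a
  refine ⟨f a, ?_, ?_⟩
  · have hfa : ∀ E : Finset (Fin m), f a ∈ E.map f ↔ a ∈ E := fun E => mem_map' f
    simp only [pt, hfa]
    rw [mem_symmDiff] at haa
    rcases haa with ⟨h1, h2⟩ | ⟨h1, h2⟩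
    · rw [if_pos h1, if_neg h2]
      exact (hn _ (hfK a)).symm
    · rw [if_pos h1, if_neg h2]
      exact hn _ (hfK a)
  · intro i hi
    have : i ∈ C.map f ↔ i ∈ D.map f := by
      rw [mem_map, mem_map]
      have key : ∀ b, f b = i → (b ∈ C ↔ b ∈ D) := by
        intro b hb
        have hba : b ≠ a := by
          rintro rfl
          exact hi hb.symm
        have : b ∉ symmDiff C D := by rw [ha]; simpa using hba
        rw [mem_symmDiff] at this
        tauto
      constructor
      · rintro ⟨b, hb, hb'⟩
        exact ⟨b, (key b hb').1 hb, hb'⟩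
      · rintro ⟨b, hb, hb'⟩
        exact ⟨b, (key b hb').2 hb, hb'⟩
    simp only [pt, this]

theorem grow {d m : ℕ} (hd : d ≤ 2 ^ (m - 1)) {p : (∀ i, W i) → Fin d → ℝ}
    (hp : MG p) (G : ∀ i, SimpleGraph (W i)) (hG : ∀ i, (G i).Connected)
    (hc : GenRigid d (cube (Fin m))) {K : Finset ι} (hK : K.card = m) (hm : 1 ≤ m) (k : ℕ) :
    ∀ U : ∀ i, Finset (W i), ∑ i, ((U i)ᶜ).card = k → (∀ i, (U i).Nonempty) →
      (∀ i ∈ K, ∀ a ∈ U i, ∃ b ∈ U i, (G i).Adj a b) →
      (∀ x y : ∀ i, W i, (∀ i, x i ∈ U i) → (∀ i, y i ∈ U i) → x ≠ y →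
        (clo (cartesian G) p).Adj x y) →
      ∀ x y : ∀ i, W i, x ≠ y → (clo (cartesian G) p).Adj x y := by
  induction k using Nat.strong_induction_on with
  | _ k ih =>
    intro U hk hne hnb hcl
    by_cases hall : ∀ i, U i = univ
    · intro x y hxy
      exact hcl x y (fun i => by rw [hall]; exact mem_univ _)
        (fun i => by rw [hall]; exact mem_univ _) hxy
    push Not at hall
    obtain ⟨i, hi⟩ := hall
    -- an edge across
    obtain ⟨u, hu, l, hl, hul⟩ : ∃ u ∈ U i, ∃ l, l ∉ U i ∧ (G i).Adj u l := by
      obtain ⟨a, ha⟩ := hne i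
      obtain ⟨b, hb⟩ : ∃ b, b ∉ U i := by
        by_contra h
        push Not at h
        exact hi (eq_univ_iff_forall.2 h)
      obtain ⟨w⟩ := (hG i).preconnected a b
      obtain ⟨e, -, h1, h2⟩ := w.exists_boundary_dart (↑(U i) : Set (W i)) (by simpa using ha)
        (by simpa using hb)
      exact ⟨e.fst, by simpa using h1, e.snd, by simpa using h2, e.adj⟩
    set U' : ∀ i, Finset (W i) := Function.update U i (insert l (U i)) with hU'
    have hU'i : U' i = insert l (U i) := Function.update_self _ _ _
    have hU'j : ∀ j, j ≠ i → U' j = U j := fun j hj => Function.update_of_ne hj _ _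
    have hsub : ∀ j, U j ⊆ U' j := by
      intro j
      by_cases hj : j = i
      · subst hj
        rw [hU'i]
        exact subset_insert _ _
      · rw [hU'j j hj]
    -- new vertices
    have hv : ∀ x : ∀ i, W i, (∀ i, x i ∈ U' i) → ∀ z ∈ {x : ∀ i, W i | ∀ i, x i ∈ U i}, x ≠ z →
        (clo (cartesian G) p).Adj x z := by
      intro x hx z hz hxz
      by_cases hxU : ∀ j, x j ∈ U j
      · exact hcl x z hxU hz hxz
      have hxi : x i = l := by
        push Not at hxU
        obtain ⟨j, hj⟩ := hxU
        by_cases hji : j = i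
        · subst hji
          have := hx j
          rw [hU'i, mem_insert] at this
          exact this.resolve_right hj
        · have := hx j
          rw [hU'j j hji] at this
          exact absurd this hj
      have hxj : ∀ j, j ≠ i → x j ∈ U j := by
        intro j hj
        have := hx j
        rwa [hU'j j hj] at this
      obtain ⟨J, hJ, hJc⟩ := exists_subset_card_eq (show m - 1 ≤ (K.erase i).card by
        rw [← hK]; exact pred_card_le_card_erase)
      have hiJ : i ∉ J := fun h => (mem_erase.1 (hJ h)).1 rfl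
      have hex : ∀ j, ∃ b : W j, (j ∈ J → (b ∈ U j ∧ (G j).Adj (x j) b)) ∧ (j = i → HEq b u) := by
        intro j
        by_cases hji : j = i
        · subst hji
          exact ⟨u, fun h => absurd h hiJ, fun _ => HEq.rfl⟩
        · by_cases hjJ : j ∈ J
          · obtain ⟨b, hb, hb'⟩ := hnb j (mem_of_mem_erase (hJ hjJ)) (x j) (hxj j hji)
            exact ⟨b, fun _ => ⟨hb, hb'⟩, fun h => absurd h hji⟩
          · exact ⟨x j, fun h => absurd h hjJ, fun h => absurd h hji⟩
      choose n hn using hex
      have hni : n i = u := eq_of_heq ((hn i).2 rfl)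
      have hnK : ∀ j ∈ insert i J, (G j).Adj (x j) (n j) := by
        intro j hj
        rcases mem_insert.1 hj with rfl | hj
        · rw [hni, hxi]
          exact hul.symm
        · exact ((hn j).1 hj).2
      have hKc : (insert i J).card = m := by
        rw [card_insert_of_notMem hiJ, hJc]
        omega
      have hptU : ∀ A ⊆ J, ∀ j, pt x n (insert i A) j ∈ U j := by
        intro A hA j
        by_cases hji : j = i
        · subst hji
          simp only [pt, mem_insert_self, if_true]
          rw [hni]
          exact hu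
        · simp only [pt, mem_insert, hji, false_or]
          split_ifs with h
          · exact ((hn j).1 (hA h)).1
          · exact hxj j hji
      have hx0 : pt x n ∅ = x := by
        funext j
        simp [pt]
      refine attach hp _ (U := {x : ∀ i, W i | ∀ i, x i ∈ U i}) (fun a ha b hb hab =>
        hcl a b ha hb hab) hz hxz (T := J.powerset.image fun A => pt x n (insert i A)) ?_ ?_ ?_
      · rw [card_image_of_injOn, card_powerset, hJc]
        · exact hd
        · intro A hA B hB hAB
          by_contra hne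
          have hA' : A ⊆ J := mem_powerset.1 hA
          have hB' : B ⊆ J := mem_powerset.1 hB
          have := pt_closed hp G hc hKc hnK (insert_subset_insert i hA')
            (insert_subset_insert i hB') (fun h => hne (by
              have hiA : i ∉ A := fun h => hiJ (hA' h)
              have hiB : i ∉ B := fun h => hiJ (hB' h)
              rw [← erase_insert hiA, ← erase_insert hiB, h]))
          exact this.ne hAB
      · intro a ha
        obtain ⟨A, hA, rfl⟩ := mem_image.1 ha
        exact hptU A (mem_powerset.1 hA)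
      · intro a ha
        obtain ⟨A, hA, rfl⟩ := mem_image.1 ha
        have := pt_closed hp G hc hKc hnK (empty_subset _)
          (insert_subset_insert i (mem_powerset.1 hA)) (insert_ne_empty i A).symm
        rwa [hx0] at this
    refine ih _ ?_ U' rfl ?_ ?_ ?_
    · rw [← hk]
      refine sum_lt_sum (fun j _ => card_le_card (compl_subset_compl.2 (hsub j)))
        ⟨i, mem_univ _, card_lt_card ?_⟩
      rw [hU'i]
      refine ⟨compl_subset_compl.2 (subset_insert _ _), fun h => ?_⟩
      have := h (mem_compl.2 hl)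
      simp at this
    · exact fun j => (hne j).mono (hsub j)
    · intro j hj a ha
      by_cases hji : j = i
      · subst hji
        rw [hU'i] at ha ⊢
        rcases mem_insert.1 ha with rfl | ha
        · exact ⟨u, mem_insert_of_mem hu, hul.symm⟩
        · obtain ⟨b, hb, hb'⟩ := hnb j hj a ha
          exact ⟨b, mem_insert_of_mem hb, hb'⟩
      · rw [hU'j j hji] at ha ⊢
        exact hnb j hj a ha
    · intro x y hx hy hxy
      -- enough points in the old box
      have hT : ∃ T : Finset (∀ i, W i), d ≤ T.card ∧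
          ∀ a ∈ T, a ∈ {x : ∀ i, W i | ∀ i, x i ∈ U i} := by
        choose x0 hx0 using hne
        have hex : ∀ j, ∃ b : W j, (j ∈ K → (b ∈ U j ∧ (G j).Adj (x0 j) b)) := by
          intro j
          by_cases hjK : j ∈ K
          · obtain ⟨b, hb, hb'⟩ := hnb j hjK (x0 j) (hx0 j)
            exact ⟨b, fun _ => ⟨hb, hb'⟩⟩
          · exact ⟨x0 j, fun h => absurd h hjK⟩
        choose n hn using hex
        refine ⟨K.powerset.image fun A => pt x0 n A, ?_, ?_⟩
        · rw [card_image_of_injOn, card_powerset, hK]
          · exact hd.trans (Nat.pow_le_pow_right (by norm_num) (Nat.sub_le _ _))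
          · intro A hA B hB hAB
            by_contra hne
            exact (pt_closed hp G hc hK (fun j hj => (hn j hj).2) (mem_powerset.1 hA)
              (mem_powerset.1 hB) hne).ne hAB
        · intro a ha
          obtain ⟨A, hA, rfl⟩ := mem_image.1 ha
          intro j
          simp only [pt]
          split_ifs with h
          · exact (hn j (mem_powerset.1 hA h)).1
          · exact hx0 j
      obtain ⟨T, hT1, hT2⟩ := hT
      exact attach_two hp _ (fun a ha b hb hab => hcl a b ha hb hab) hT1 hT2 hxy (hv x hx)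
        (hv y hy)

end

/-- Every cartesian product of at least `m` connected graphs, each with at least two vertices, is
generically rigid in `ℝ^d`. -/
def Suffices (d m : ℕ) : Prop :=
  ∀ (ι : Type) [Fintype ι] (W : ι → Type) [∀ i, Fintype (W i)] (G : ∀ i, SimpleGraph (W i)),
    (∀ i, Nontrivial (W i)) → (∀ i, (G i).Connected) → m ≤ Fintype.card ι →
    GenRigid d (cartesian G)

theorem prod_rigid {d m : ℕ} (hm : 1 ≤ m) (hd : d ≤ 2 ^ (m - 1))
    (hc : GenRigid d (cube (Fin m))) : Suffices d m := by
  intro ι _ W _ G hW hG hcard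
  classical
  obtain ⟨p, hp⟩ := exists_mg (∀ i, W i) d
  refine rigid_of_all hp _ ?_
  obtain ⟨K, -, hK⟩ := exists_subset_card_eq (show m ≤ (univ : Finset ι).card by
    rwa [card_univ])
  have hx0 : ∀ i, ∃ a b : W i, (G i).Adj a b := by
    intro i
    have := hW i
    obtain ⟨a⟩ := (hG i).nonempty
    obtain ⟨b, hb⟩ := (hG i).preconnected.exists_adj_of_nontrivial a
    exact ⟨a, b, hb⟩
  choose x0 n0 hn0 using hx0
  refine grow hd hp G hG hc hK hm _ (fun i => if i ∈ K then {x0 i, n0 i} else {x0 i}) rfl ?_ ?_ ?_
  · intro i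
    by_cases hi : i ∈ K
    · simp [hi]
    · simp [hi]
  · intro i hi a ha
    simp only [hi, if_true, mem_insert, mem_singleton] at ha ⊢
    rcases ha with rfl | rfl
    · exact ⟨n0 i, Or.inr rfl, hn0 i⟩
    · exact ⟨x0 i, Or.inl rfl, (hn0 i).symm⟩
  · intro x y hx hy hxy
    have hform : ∀ x : ∀ i, W i, (∀ i, x i ∈ if i ∈ K then ({x0 i, n0 i} : Finset (W i)) else
        {x0 i}) → pt x0 n0 (K.filter fun i => x i = n0 i) = x := by
      intro x hx
      funext i
      have h1 := hx i
      simp only [pt, mem_filter]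
      by_cases hi : i ∈ K
      · simp only [hi, if_true, mem_insert, mem_singleton, true_and] at h1 ⊢
        by_cases h2 : x i = n0 i
        · rw [if_pos h2, h2]
        · rw [if_neg h2]
          exact (h1.resolve_right h2).symm
      · simp only [hi, if_false, mem_singleton, false_and] at h1 ⊢
        exact h1.symm
    rw [← hform x hx, ← hform y hy]
    refine pt_closed hp G hc hK (fun i _ => hn0 i) (filter_subset _ _) (filter_subset _ _) ?_
    intro h
    exact hxy (by rw [← hform x hx, ← hform y hy, h])

end Pool.Agent.Q231.CP
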