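import Mathlib
import Pool.Agent.Q231.CP.Six

/-!
# The six-dimensional hypercube is generically rigid in three-space: the motions
-/

set_option autoImplicit false
set_option linter.unusedSectionVars false

namespace Pool.Agent.Q231.CP.Six

open Matrix Finset Pool.Agent.H283R2.DR Pool.Agent.H789R5

/-- the vertices of the cube -/
def f (x : Fin 8 × Fin 8) : Finset (Fin 6) :=
  univ.filter fun i => if i.val < 3 then x.1.val.testBit i.val = true
    else x.2.val.testBit (i.val - 3) = true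

theorem f_b : ∀ a b : Fin 8, ∀ i : Fin 3,
    (symmDiff (f (a, b)) (f (a, b ^^^ e i))).card = 1 := by decide +kernel

theorem f_a : ∀ a b : Fin 8, ∀ i : Fin 3,
    (symmDiff (f (a, b)) (f (a ^^^ e i, b))).card = 1 := by decide +kernel

theorem f_inj : ∀ x y : Fin 8 × Fin 8, f x = f y → x = y := by decide +kernel

/-- the placement over the integers on the vertices -/
noncomputable def phi : Fin 8 × Fin 8 ≃ Finset (Fin 6) :=
  Equiv.ofBijective f ((Fintype.bijective_iff_injective_and_card f).2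
    ⟨fun x y h => f_inj x y h, by simp⟩)

/-- the placement -/
noncomputable def pl (A : Finset (Fin 6)) (l : Fin 3) : ℝ :=
  (pos (phi.symm A).1 (phi.symm A).2 l : ℝ)

theorem pl_f (a b : Fin 8) (l : Fin 3) : pl (f (a, b)) l = (pos a b l : ℝ) := by
  have : phi.symm (f (a, b)) = (a, b) := by
    rw [Equiv.symm_apply_eq]
    rfl
  unfold pl
  rw [this]

/-- the parts of a velocity -/
noncomputable def F (χ k : Fin 8) (l : Fin 3) : (Finset (Fin 6) → Fin 3 → ℝ) →ₗ[ℝ] ℝ where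
  toFun q := ∑ a : Fin 8, ((sg (χ &&& a) * sg (a &&& e l) : ℤ) : ℝ) * q (f (a, k ^^^ m a)) l
  map_add' q q' := by
    rw [← sum_add_distrib]
    exact sum_congr rfl fun a _ => by rw [Pi.add_apply, Pi.add_apply, mul_add]
  map_smul' c q := by
    rw [RingHom.id_apply, smul_eq_mul, mul_sum]
    exact sum_congr rfl fun a _ => by
      rw [Pi.smul_apply, Pi.smul_apply, smul_eq_mul]
      ring

theorem F_apply (χ k : Fin 8) (l : Fin 3) (q : Finset (Fin 6) → Fin 3 → ℝ) :
    F χ k l q = ∑ a : Fin 8, ((sg (χ &&& a) * sg (a &&& e l) : ℤ) : ℝ) *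
      q (f (a, k ^^^ m a)) l := rfl

theorem edge_b {q : Finset (Fin 6) → Fin 3 → ℝ} (hq : IsMotion (cube (Fin 6)) pl q)
    (a b : Fin 8) (i : Fin 3) :
    ∑ l, ((pos a b l - pos a (b ^^^ e i) l : ℤ) : ℝ) *
      (q (f (a, b)) l - q (f (a, b ^^^ e i)) l) = 0 := by
  have := hq _ _ (f_b a b i : (cube (Fin 6)).Adj _ _)
  rw [← this]
  refine sum_congr rfl fun l _ => ?_
  rw [Pi.sub_apply, Pi.sub_apply, pl_f, pl_f, Int.cast_sub]

theorem edge_a {q : Finset (Fin 6) → Fin 3 → ℝ} (hq : IsMotion (cube (Fin 6)) pl q)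
    (a b : Fin 8) (i : Fin 3) :
    ∑ l, ((pos a b l - pos (a ^^^ e i) b l : ℤ) : ℝ) *
      (q (f (a, b)) l - q (f (a ^^^ e i, b)) l) = 0 := by
  have := hq _ _ (f_a a b i : (cube (Fin 6)).Adj _ _)
  rw [← this]
  refine sum_congr rfl fun l _ => ?_
  rw [Pi.sub_apply, Pi.sub_apply, pl_f, pl_f, Int.cast_sub]

theorem pos_b : ∀ (a k : Fin 8) (i l : Fin 3),
    pos a (k ^^^ m a) l - pos a ((k ^^^ m a) ^^^ e i) l =
      sg (a &&& e l) * (P k l - P (k ^^^ e i) l) := by decide +kernel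

theorem xor_b : ∀ (a k : Fin 8) (i : Fin 3), (k ^^^ m a) ^^^ e i = (k ^^^ e i) ^^^ m a := by
  decide +kernel

theorem pos_a : ∀ (a k : Fin 8) (i l : Fin 3),
    pos a (k ^^^ m a) l - pos (a ^^^ e i) (k ^^^ m a) l =
      sg (a &&& e l) * (P k l - s i l * P (k ^^^ M i) l) := by decide +kernel

theorem xor_a : ∀ (a k : Fin 8) (i : Fin 3),
    k ^^^ m (a ^^^ e i) = (k ^^^ M i) ^^^ m a := by decide +kernel

theorem sg_a : ∀ (χ a : Fin 8) (i l : Fin 3),
    sg (χ &&& (a ^^^ e i)) * sg ((a ^^^ e i) &&& e l) =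
      sg (χ &&& e i) * s i l * (sg (χ &&& a) * sg (a &&& e l)) := by decide +kernel

theorem xor_inv : ∀ (a : Fin 8) (i : Fin 3), (a ^^^ e i) ^^^ e i = a := by decide +kernel

theorem eq_b {q : Finset (Fin 6) → Fin 3 → ℝ} (hq : IsMotion (cube (Fin 6)) pl q)
    (χ k : Fin 8) (i : Fin 3) :
    ∑ l, ((P k l - P (k ^^^ e i) l : ℤ) : ℝ) * (F χ k l q - F χ (k ^^^ e i) l q) = 0 := by
  have h : ∀ l, ((P k l - P (k ^^^ e i) l : ℤ) : ℝ) * (F χ k l q - F χ (k ^^^ e i) l q) =
      ∑ a : Fin 8, (sg (χ &&& a) : ℝ) *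
        (((pos a (k ^^^ m a) l - pos a ((k ^^^ m a) ^^^ e i) l : ℤ) : ℝ) *
          (q (f (a, k ^^^ m a)) l - q (f (a, (k ^^^ m a) ^^^ e i)) l)) := by
    intro l
    rw [F_apply, F_apply, ← sum_sub_distrib, mul_sum]
    refine sum_congr rfl fun a _ => ?_
    rw [pos_b, xor_b]
    push_cast
    ring
  rw [sum_congr rfl fun l _ => h l, sum_comm]
  refine sum_eq_zero fun a _ => ?_
  rw [← mul_sum, edge_b hq, mul_zero]

theorem eq_a {q : Finset (Fin 6) → Fin 3 → ℝ} (hq : IsMotion (cube (Fin 6)) pl q)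
    (χ k : Fin 8) (i : Fin 3) :
    ∑ l, ((P k l - s i l * P (k ^^^ M i) l : ℤ) : ℝ) *
      (F χ k l q - ((sg (χ &&& e i) * s i l : ℤ) : ℝ) * F χ (k ^^^ M i) l q) = 0 := by
  have h : ∀ l, ((P k l - s i l * P (k ^^^ M i) l : ℤ) : ℝ) *
      (F χ k l q - ((sg (χ &&& e i) * s i l : ℤ) : ℝ) * F χ (k ^^^ M i) l q) =
      ∑ a : Fin 8, (sg (χ &&& a) : ℝ) *
        (((pos a (k ^^^ m a) l - pos (a ^^^ e i) (k ^^^ m a) l : ℤ) : ℝ) *
          (q (f (a, k ^^^ m a)) l - q (f (a ^^^ e i, k ^^^ m a)) l)) := by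
    intro l
    have h2 : ((sg (χ &&& e i) * s i l : ℤ) : ℝ) * F χ (k ^^^ M i) l q =
        ∑ a : Fin 8, ((sg (χ &&& a) * sg (a &&& e l) : ℤ) : ℝ) *
          q (f (a ^^^ e i, k ^^^ m a)) l := by
      have hinv : Function.Involutive (fun a : Fin 8 => a ^^^ e i) := fun a => xor_inv a i
      rw [← Equiv.sum_comp hinv.toPerm, F_apply, mul_sum]
      refine sum_congr rfl fun a _ => ?_
      show _ = ((sg (χ &&& (a ^^^ e i)) * sg ((a ^^^ e i) &&& e l) : ℤ) : ℝ) *
          q (f ((a ^^^ e i) ^^^ e i, k ^^^ m (a ^^^ e i))) l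
      rw [xor_inv, xor_a, sg_a, Int.cast_mul (sg (χ &&& e i) * s i l)]
      ring
    rw [h2, F_apply, ← sum_sub_distrib, mul_sum]
    refine sum_congr rfl fun a _ => ?_
    rw [pos_a]
    push_cast
    ring
  rw [sum_congr rfl fun l _ => h l, sum_comm]
  refine sum_eq_zero fun a _ => ?_
  rw [← mul_sum, edge_a hq, mul_zero]

/-- the equations hold for the parts of a motion -/
theorem eq_B0 {q : Finset (Fin 6) → Fin 3 → ℝ} (hq : IsMotion (cube (Fin 6)) pl q)
    (χ : Fin 8) (r : Fin 24) : ∑ c : Fin 8 × Fin 3, (B0 χ r c : ℝ) * F χ c.1 c.2 q = 0 := by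
  rw [Fintype.sum_prod_type_right]
  by_cases hr : r.val < 12
  · rw [← eq_b hq χ (RK r) (RI r)]
    refine sum_congr rfl fun l _ => ?_
    have h : ∀ k : Fin 8, (B0 χ r (k, l) : ℝ) * F χ k l q =
        ((P (RK r) l - P (RK r ^^^ e (RI r)) l : ℤ) : ℝ) *
          ((if k = RK r then F χ k l q else 0) -
            if k = RK r ^^^ e (RI r) then F χ k l q else 0) := by
      intro k
      unfold B0
      rw [if_pos hr]
      push_cast
      split_ifs <;> ring
    rw [sum_congr rfl fun k _ => h k, ← mul_sum, sum_sub_distrib, sum_ite_eq' univ,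
      sum_ite_eq' univ, if_pos (mem_univ _), if_pos (mem_univ _)]
  · rw [← eq_a hq χ (RK r) (RI r)]
    refine sum_congr rfl fun l _ => ?_
    have h : ∀ k : Fin 8, (B0 χ r (k, l) : ℝ) * F χ k l q =
        ((P (RK r) l - s (RI r) l * P (RK r ^^^ M (RI r)) l : ℤ) : ℝ) *
          ((if k = RK r then F χ k l q else 0) -
            ((sg (χ &&& e (RI r)) * s (RI r) l : ℤ) : ℝ) *
              if k = RK r ^^^ M (RI r) then F χ k l q else 0) := by
      intro k
      unfold B0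
      rw [if_neg hr]
      push_cast
      split_ifs <;> ring
    rw [sum_congr rfl fun k _ => h k, ← mul_sum, sum_sub_distrib, ← mul_sum, sum_ite_eq' univ,
      sum_ite_eq' univ, if_pos (mem_univ _), if_pos (mem_univ _)]

/-- the matrices are injective -/
theorem B_inj (χ : Fin 8) (x : Fin 8 × Fin 3 → ℝ)
    (h : ∀ r, ∑ c, (B χ r c : ℝ) * x c = 0) : x = 0 := by
  set BB : Matrix (Fin 24) (Fin 8 × Fin 3) ℤ := Matrix.of (B χ) with hBB
  set LL : Matrix (Fin 8 × Fin 3) (Fin 24) ℤ := Matrix.of (L χ) with hLL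
  have h1 : (LL * BB).map (Int.cast : ℤ → ZMod 3) = 1 := by
    ext c c'
    rw [Matrix.map_apply, Matrix.mul_apply, Matrix.one_apply]
    have h2 := chk χ c c'
    have h3 : ((∑ r : Fin 24, L χ c r * B χ r c' - if c = c' then 1 else 0 : ℤ) : ZMod 3) = 0 :=
      (ZMod.intCast_zmod_eq_zero_iff_dvd _ 3).2 (Int.dvd_of_emod_eq_zero h2)
    rw [Int.cast_sub, sub_eq_zero] at h3
    rw [show ∑ j, LL c j * BB j c' = ∑ r : Fin 24, L χ c r * B χ r c' from rfl, h3]
    split_ifs <;> simp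
  have h2 : (LL * BB).det ≠ 0 := by
    intro h0
    have h3 := congrArg (Int.cast : ℤ → ZMod 3) h0
    have h4 : ((LL * BB).det : ZMod 3) = ((LL * BB).map (Int.cast : ℤ → ZMod 3)).det :=
      Int.cast_det _
    rw [h4, h1, det_one] at h3
    simp at h3
  have h3 : ((LL * BB).map (Int.cast : ℤ → ℝ)).det ≠ 0 := by
    have h4 : ((LL * BB).det : ℝ) = ((LL * BB).map (Int.cast : ℤ → ℝ)).det :=
      Int.cast_det _
    rw [← h4]
    exact_mod_cast h2
  refine Matrix.eq_zero_of_mulVec_eq_zero h3 ?_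
  have h4 : (LL * BB).map (Int.cast : ℤ → ℝ) =
      LL.map (Int.cast : ℤ → ℝ) * BB.map (Int.cast : ℤ → ℝ) := by
    ext c c'
    rw [Matrix.map_apply, Matrix.mul_apply, Matrix.mul_apply]
    push_cast
    rfl
  have h5 : BB.map (Int.cast : ℤ → ℝ) *ᵥ x = 0 := by
    funext r
    exact h r
  rw [h4, ← Matrix.mulVec_mulVec, h5, Matrix.mulVec_zero]

theorem orth : ∀ (l : Fin 3) (a a' : Fin 8),
    ∑ χ : Fin 8, (sg (χ &&& a) * sg (a &&& e l)) * (sg (χ &&& a') * sg (a' &&& e l)) =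
      if a = a' then 8 else 0 := by decide +kernel

theorem xor_self : ∀ a b : Fin 8, (b ^^^ m a) ^^^ m a = b := by decide +kernel

/-- a velocity with all parts zero is zero -/
theorem F_zero {q : Finset (Fin 6) → Fin 3 → ℝ} (h : ∀ χ k l, F χ k l q = 0) : q = 0 := by
  have key : ∀ (a b : Fin 8) (l : Fin 3), q (f (a, b)) l = 0 := by
    intro a b l
    have h1 : ∑ χ : Fin 8, ((sg (χ &&& a) * sg (a &&& e l) : ℤ) : ℝ) *
        F χ (b ^^^ m a) l q = 0 := sum_eq_zero fun χ _ => by rw [h, mul_zero]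
    simp only [F_apply, mul_sum] at h1
    rw [sum_comm] at h1
    have h2 : ∀ a' : Fin 8, ∑ χ : Fin 8, ((sg (χ &&& a) * sg (a &&& e l) : ℤ) : ℝ) *
        (((sg (χ &&& a') * sg (a' &&& e l) : ℤ) : ℝ) *
          q (f (a', (b ^^^ m a) ^^^ m a')) l) =
        if a = a' then 8 * q (f (a', (b ^^^ m a) ^^^ m a')) l else 0 := by
      intro a'
      have h3 := congrArg (Int.cast : ℤ → ℝ) (orth l a a')
      rw [Int.cast_sum] at h3
      rw [sum_congr rfl fun χ _ => (mul_assoc _ _ _).symm, ← sum_mul]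
      rw [sum_congr rfl fun χ _ => (Int.cast_mul _ _).symm, h3]
      split_ifs <;> simp
    rw [sum_congr rfl fun a' _ => h2 a', sum_ite_eq univ, if_pos (mem_univ _), xor_self] at h1
    linarith
  funext A l
  obtain ⟨⟨a, b⟩, rfl⟩ := phi.surjective A
  exact key a b l

theorem surj8 : ∀ χ : Fin 8, χ ≠ 0 → χ ≠ 7 → ∃ t : Fin 6, t.succ.castSucc = χ := by decide

theorem mo_pl : mo (cube (Fin 6)) pl ≤ 6 := by
  have h := dim_drop (T := Fin 6) (Mot (cube (Fin 6)) pl) ⊥
    (fun t => F (t.succ.castSucc) 0 (l0 (t.succ.castSucc))) ?_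
  · rw [finrank_bot, Fintype.card_fin, zero_add] at h
    exact h
  · intro q hq hz
    rw [mem_mot] at hq
    rw [Submodule.mem_bot]
    refine F_zero fun χ k l => ?_
    have hx : (fun c : Fin 8 × Fin 3 => F χ c.1 c.2 q) = 0 := by
      refine B_inj χ _ fun r => ?_
      by_cases hr : r.val = r0 χ
      · have h1 : ∀ c, (B χ r c : ℝ) * F χ c.1 c.2 q =
            if c = (0, l0 χ) then F χ c.1 c.2 q else 0 := by
          intro c
          unfold B
          rw [if_pos hr]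
          split_ifs <;> simp
        rw [sum_congr rfl fun c _ => h1 c, sum_ite_eq' univ, if_pos (mem_univ _)]
        have h2 : χ ≠ 0 ∧ χ ≠ 7 := by
          have hr' := r.2
          constructor
          · rintro rfl
            rw [hr] at hr'
            exact absurd hr' (by decide)
          · rintro rfl
            rw [hr] at hr'
            exact absurd hr' (by decide)
        obtain ⟨t, rfl⟩ := surj8 χ h2.1 h2.2
        exact hz t
      · rw [← eq_B0 hq χ r]
        refine sum_congr rfl fun c _ => ?_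
        unfold B
        rw [if_neg hr]
    exact congrFun hx (k, l)

/-- **The six-dimensional hypercube is generically rigid in three-space.** -/
theorem cube_six : GenRigid 3 (cube (Fin 6)) := by
  obtain ⟨p, hp⟩ := exists_mg (Finset (Fin 6)) 3
  rw [genRigid_iff hp (by rw [Fintype.card_finset, Fintype.card_fin]; norm_num)]
  exact (hp.min _ _).trans mo_pl

end Pool.Agent.Q231.CP.Six
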