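import Mathlib
import Pool.Agent.Q231.CP.Prod
import Pool.Agent.Q231.CP.SixB

/-!
# How many factors suffice
-/

set_option autoImplicit false
set_option linter.unusedSectionVars false

namespace Pool.Agent.Q231.CP

open Matrix Finset Pool.Agent.H283R2.DR Pool.Agent.H789R5

theorem suffices_mono {d m m' : ℕ} (h : Suffices d m) (hmm : m ≤ m') : Suffices d m' :=
  fun ι _ W _ G hW hG hm' => h ι W G hW hG (hmm.trans hm')

theorem suffices_zero (m : ℕ) : Suffices 0 m := by
  intro ι _ W _ G _ _ _
  refine ⟨0, fun q _ => ⟨0, 0, by simp, fun v => ?_⟩⟩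
  funext i
  exact i.elim0

theorem suffices_of_crit {d m : ℕ} (hd : 1 ≤ d) (hm : 1 ≤ m) (hdm : d ≤ 2 ^ (m - 1))
    (hc : Crit d m) : Suffices d m := by
  refine prod_rigid hm hdm (cube_rigid hd ?_ ?_)
  · rw [Fintype.card_fin]
    exact hdm.trans (Nat.pow_le_pow_right (by norm_num) (Nat.sub_le _ _))
  · rw [Fintype.card_fin]
    exact hc

theorem suffices_three : Suffices 3 6 := prod_rigid (by norm_num) (by norm_num) Six.cube_six

/-! ### The lower bound -/

theorem edges_bound {V : Type} [Fintype V] {d k : ℕ} {p : V → Fin d → ℝ} (G : SimpleGraph V)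
    [DecidableRel G.Adj] (hG : G.IsRegularOfDegree k) :
    2 * (d * Fintype.card V) ≤ 2 * mo G p + k * Fintype.card V := by
  classical
  have h1 := mo_le_add (G := (⊥ : SimpleGraph V)) (G' := G) p
  have h2 : mo (⊥ : SimpleGraph V) p = d * Fintype.card V := by
    have : Mot (⊥ : SimpleGraph V) p = ⊤ := by
      rw [eq_top_iff]
      intro q _
      rw [mem_mot]
      intro a b h
      exact absurd h (by simp)
    unfold mo
    rw [this, finrank_top, finrank_all]
  rw [h2] at h1
  have h3 : (G.edgeSet \ (⊥ : SimpleGraph V).edgeSet).ncard = #G.edgeFinset := by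
    rw [SimpleGraph.edgeSet_bot, Set.sdiff_empty, ← SimpleGraph.coe_edgeFinset,
      Set.ncard_coe_finset]
  rw [h3] at h1
  have h4 := G.sum_degrees_eq_twice_card_edges
  rw [sum_congr rfl fun v _ => hG v, sum_const, card_univ, smul_eq_mul] at h4
  rw [mul_comm k]
  omega

theorem not_suffices {d : ℕ} (hd : 2 ≤ d) : ¬ Suffices d (2 * d - 1) := by
  classical
  intro h
  have h1 := h (Fin (2 * d - 1)) (fun _ => Bool) (fun _ => ⊤) (fun _ => inferInstance)
    (fun _ => SimpleGraph.connected_top) (by simp)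
  obtain ⟨p, hp⟩ := exists_mg (Fin (2 * d - 1) → Bool) d
  have hcard : Fintype.card (Fin (2 * d - 1) → Bool) = 2 ^ (2 * d - 1) := by simp
  have hpow : d ≤ 2 ^ (2 * d - 1) := by
    have h2 : d < 2 ^ d := Nat.lt_two_pow_self
    exact h2.le.trans (Nat.pow_le_pow_right (by norm_num) (by omega))
  rw [genRigid_iff hp (by rw [hcard]; exact hpow)] at h1
  have hreg : (cartesian (fun _ : Fin (2 * d - 1) => (⊤ : SimpleGraph Bool))).IsRegularOfDegree
      (2 * d - 1) := by
    intro x
    rw [← SimpleGraph.card_neighborFinset_eq_degree]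
    have : (cartesian (fun _ : Fin (2 * d - 1) => (⊤ : SimpleGraph Bool))).neighborFinset x =
        univ.image fun i => Function.update x i (!(x i)) := by
      ext y
      rw [SimpleGraph.mem_neighborFinset, mem_image]
      constructor
      · rintro ⟨i, hi, hj⟩
        refine ⟨i, mem_univ _, ?_⟩
        funext j
        by_cases hji : j = i
        · subst hji
          rw [Function.update_self]
          have : x j ≠ y j := hi
          revert this
          cases x j <;> cases y j <;> simp
        · rw [Function.update_of_ne hji]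
          exact hj j hji
      · rintro ⟨i, -, rfl⟩
        refine ⟨i, ?_, ?_⟩
        · rw [SimpleGraph.top_adj, Function.update_self]
          cases x i <;> simp
        · intro j hj
          rw [Function.update_of_ne hj]
    rw [this, card_image_of_injective, card_univ, Fintype.card_fin]
    intro i j hij
    by_contra hne
    have h2 := congrFun hij i
    simp only [Function.update_self, Function.update_of_ne hne] at h2
    revert h2
    cases x i <;> simp
  have h3 := edges_bound (p := p) _ hreg
  rw [hcard] at h3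
  have h4 : d * (d + 1) / 2 < 2 ^ (2 * d - 2) := by
    have key : ∀ n : ℕ, (n + 2) * (n + 3) < 2 * 2 ^ (2 * n + 2) := by
      intro n
      induction n with
      | zero => norm_num
      | succ n ih =>
        have e1 : 2 * 2 ^ (2 * (n + 1) + 2) = 4 * (2 * 2 ^ (2 * n + 2)) := by
          rw [show 2 * (n + 1) + 2 = 2 * n + 2 + 2 by ring, pow_add]
          ring
        rw [e1]
        nlinarith
    obtain ⟨n, rfl⟩ := Nat.exists_eq_add_of_le hd
    have h5 := key n
    rw [show 2 * (2 + n) - 2 = 2 * n + 2 by omega]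
    have e2 : (2 + n) * (2 + n + 1) = (n + 2) * (n + 3) := by ring
    rw [e2]
    omega
  have e3 : 2 ^ (2 * d - 1) = 2 * 2 ^ (2 * d - 2) := by
    rw [← pow_succ']
    congr 1
    omega
  rw [e3] at h3
  obtain ⟨n, hn⟩ : ∃ n, 2 * d = n + 1 := ⟨2 * d - 1, by omega⟩
  have e4 : 2 * (d * (2 * 2 ^ (2 * d - 2))) =
      (2 * d - 1) * (2 * 2 ^ (2 * d - 2)) + 2 * 2 ^ (2 * d - 2) := by
    rw [← mul_assoc, hn]
    simp only [Nat.add_sub_cancel]
    ring
  omega

/-! ### The finite criterion -/

theorem crit_iff (d m : ℕ) : Crit d m ↔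
    d * 2 ^ m ≤ d * (d + 1) / 2 + ∑ w ∈ range (m + 1), m.choose w * min w (d + 1) := Iff.rfl

theorem crit_two : Crit 2 4 := by
  unfold Crit
  simp only [sum_range_succ, sum_range_zero]
  norm_num [Nat.choose]

theorem crit_four : Crit 4 9 := by
  unfold Crit
  simp only [sum_range_succ, sum_range_zero]
  norm_num [Nat.choose]

theorem crit_five : Crit 5 11 := by
  unfold Crit
  simp only [sum_range_succ, sum_range_zero]
  norm_num [Nat.choose]

theorem crit_six : Crit 6 13 := by
  unfold Crit
  simp only [sum_range_succ, sum_range_zero]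
  norm_num [Nat.choose]

/-! ### The exponential bound -/

theorem tail_half {d m : ℕ} (h : 2 * d + 1 ≤ m) :
    (2 : ℝ) ^ m ≤ 2 * ∑ w ∈ (range (m + 1)).filter (fun w => d < w), (m.choose w : ℝ) := by
  have h1 : ∑ w ∈ range (m + 1), (m.choose w : ℝ) = 2 ^ m := by
    have := Nat.sum_range_choose m
    exact_mod_cast this
  rw [← h1, ← sum_filter_add_sum_filter_not (range (m + 1)) (fun w => d < w), two_mul]
  refine add_le_add_right ?_ _
  have h2 : ∑ w ∈ (range (m + 1)).filter (fun w => ¬ d < w), (m.choose w : ℝ) =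
      ∑ w ∈ ((range (m + 1)).filter (fun w => ¬ d < w)).image (fun w => m - w),
        (m.choose w : ℝ) := by
    rw [sum_image]
    · refine sum_congr rfl fun w hw => ?_
      rw [Nat.choose_symm (by
        have := mem_range.1 (mem_filter.1 hw).1
        omega)]
    · intro w hw w' hw' hww
      have := mem_range.1 (mem_filter.1 hw).1
      have := mem_range.1 (mem_filter.1 hw').1
      simp only at hww
      omega
  rw [h2]
  refine sum_le_sum_of_subset_of_nonneg ?_ (fun _ _ _ => Nat.cast_nonneg _)
  intro w hw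
  obtain ⟨v, hv, rfl⟩ := mem_image.1 hw
  have h3 := mem_filter.1 hv
  have h4 := mem_range.1 h3.1
  rw [mem_filter, mem_range]
  omega

theorem exp_sum (m : ℕ) (l : ℝ) :
    ∑ w ∈ range (m + 1), (m.choose w : ℝ) * Real.exp (-(l * w)) ≤
      2 ^ m * Real.exp (-(l * m / 2) + l ^ 2 * m / 8) := by
  have h1 : ∑ w ∈ range (m + 1), (m.choose w : ℝ) * Real.exp (-(l * w)) =
      (Real.exp (-l) + 1) ^ m := by
    rw [add_pow]
    refine sum_congr rfl fun w _ => ?_
    rw [one_pow, mul_one, ← Real.exp_nat_mul, mul_comm]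
    congr 2
    ring
  rw [h1]
  have h2 : Real.exp (-l) + 1 = 2 * (Real.exp (-(l / 2)) * Real.cosh (l / 2)) := by
    rw [Real.cosh_eq]
    have e1 : Real.exp (-(l / 2)) * Real.exp (l / 2) = 1 := by
      rw [← Real.exp_add]
      simp
    have e2 : Real.exp (-(l / 2)) * Real.exp (-(l / 2)) = Real.exp (-l) := by
      rw [← Real.exp_add]
      congr 1
      ring
    linear_combination -e1 - e2
  rw [h2, mul_pow]
  refine mul_le_mul_of_nonneg_left ?_ (by positivity)
  have h3 : Real.exp (-(l * m / 2) + l ^ 2 * m / 8) =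
      (Real.exp (-(l / 2)) * Real.exp ((l / 2) ^ 2 / 2)) ^ m := by
    rw [← Real.exp_add, ← Real.exp_nat_mul]
    congr 1
    ring
  rw [h3]
  refine pow_le_pow_left₀ (mul_nonneg (Real.exp_pos _).le (Real.cosh_pos _).le) ?_ _
  exact mul_le_mul_of_nonneg_left (Real.cosh_le_exp_half_sq _) (Real.exp_pos _).le

theorem crit_of_log {d m : ℕ} (hd : 1 ≤ d)
    (h : (2 * d : ℝ) + √(m * Real.log m) ≤ m) : Crit d m := by
  have hd' : (1 : ℝ) ≤ d := by exact_mod_cast hd
  have hm2 : (2 : ℝ) ≤ m := by
    have := Real.sqrt_nonneg (m * Real.log m)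
    linarith
  have hm2' : 2 ≤ m := by exact_mod_cast hm2
  have hlog : 0 < Real.log m := Real.log_pos (by linarith)
  have hmpos : (0 : ℝ) < m := by linarith
  have hsq : 0 < √(m * Real.log m) := Real.sqrt_pos.2 (mul_pos hmpos hlog)
  have h21 : 2 * d + 1 ≤ m := by
    have : (2 * d : ℝ) < m := by linarith
    have : 2 * d < m := by exact_mod_cast this
    omega
  set l : ℝ := 2 * √(Real.log m) / √m with hl
  have hsm : 0 < √(m : ℝ) := Real.sqrt_pos.2 hmpos
  have hsl : 0 < √(Real.log m) := Real.sqrt_pos.2 hlog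
  have hlpos : 0 < l := by positivity
  have hsmsm : √(m : ℝ) * √(m : ℝ) = m := Real.mul_self_sqrt hmpos.le
  have hslsl : √(Real.log m) * √(Real.log m) = Real.log m := Real.mul_self_sqrt hlog.le
  have hsplit : √(m * Real.log m) = √(m : ℝ) * √(Real.log m) := Real.sqrt_mul hmpos.le _
  -- the exponent
  have hexp : l * d - 1 + (-(l * m / 2) + l ^ 2 * m / 8) ≤ -1 - Real.log m / 2 := by
    have h1 : l * (m / 2 - d) ≥ Real.log m := by
      have h2 : √(m : ℝ) * √(Real.log m) / 2 ≤ (m : ℝ) / 2 - d := by
        rw [← hsplit]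
        linarith
      have h3 : l * (√(m : ℝ) * √(Real.log m) / 2) = Real.log m := by
        rw [hl]
        field_simp
        rw [sq, hslsl]
      have := mul_le_mul_of_nonneg_left h2 hlpos.le
      linarith
    have h4 : l ^ 2 * m / 8 = Real.log m / 2 := by
      rw [hl]
      have : (2 * √(Real.log m) / √(m : ℝ)) ^ 2 = 4 * Real.log m / m := by
        rw [div_pow, mul_pow, sq (√(Real.log m)), hslsl, sq (√(m : ℝ)), hsmsm]
        ring
      rw [this]
      field_simp
      ring
    rw [h4]
    linarith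
  -- the positive part
  have hpos : ∀ w : ℕ, (d : ℝ) - min (w : ℝ) ((d : ℝ) + 1) ≤ Real.exp (l * d - 1) * Real.exp (-(l * w)) / l -
      if d < w then 1 else 0 := by
    intro w
    have hp : 0 < Real.exp (l * d - 1) * Real.exp (-(l * w)) / l := by positivity
    by_cases hw : d < w
    · have hw' : (d : ℝ) + 1 ≤ w := by exact_mod_cast hw
      rw [if_pos hw, min_eq_right hw']
      linarith
    · rw [if_neg hw, min_eq_left (by push Not at hw; have : (w : ℝ) ≤ d := by exact_mod_cast hw
                                     linarith), sub_zero, le_div_iff₀ hlpos, ← Real.exp_add]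
      have := Real.add_one_le_exp (l * d - 1 + -(l * w))
      linarith
  -- the sum
  have hsum : (d : ℝ) * 2 ^ m - ∑ w ∈ range (m + 1), (m.choose w : ℝ) * min (w : ℝ) (d + 1) ≤
      0 := by
    have h1 : ∑ w ∈ range (m + 1), (m.choose w : ℝ) = 2 ^ m := by
      have := Nat.sum_range_choose m
      exact_mod_cast this
    have h2 : (d : ℝ) * 2 ^ m - ∑ w ∈ range (m + 1), (m.choose w : ℝ) * min (w : ℝ) (d + 1) =
        ∑ w ∈ range (m + 1), (m.choose w : ℝ) * ((d : ℝ) - min (w : ℝ) (d + 1)) := by
      rw [← h1, mul_sum, ← sum_sub_distrib]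
      exact sum_congr rfl fun w _ => by ring
    rw [h2]
    have h3 : ∑ w ∈ range (m + 1), (m.choose w : ℝ) * ((d : ℝ) - min (w : ℝ) (d + 1)) ≤
        ∑ w ∈ range (m + 1), (m.choose w : ℝ) *
          (Real.exp (l * d - 1) * Real.exp (-(l * w)) / l - if d < w then 1 else 0) :=
      sum_le_sum fun w _ => mul_le_mul_of_nonneg_left (hpos w) (Nat.cast_nonneg _)
    have h4 : ∑ w ∈ range (m + 1), (m.choose w : ℝ) *
        (Real.exp (l * d - 1) * Real.exp (-(l * w)) / l - if d < w then 1 else 0) =
        Real.exp (l * d - 1) / l *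
          (∑ w ∈ range (m + 1), (m.choose w : ℝ) * Real.exp (-(l * w))) -
          ∑ w ∈ (range (m + 1)).filter (fun w => d < w), (m.choose w : ℝ) := by
      rw [sum_filter, mul_sum, ← sum_sub_distrib]
      refine sum_congr rfl fun w _ => ?_
      split_ifs <;> ring
    have h5 := exp_sum m l
    have h6 := tail_half h21
    have h7 : Real.exp (l * d - 1) / l *
        (2 ^ m * Real.exp (-(l * m / 2) + l ^ 2 * m / 8)) ≤ 2 ^ m / 2 := by
      have e1 : Real.exp (l * d - 1) / l * (2 ^ m * Real.exp (-(l * m / 2) + l ^ 2 * m / 8)) =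
          2 ^ m * (Real.exp (l * d - 1 + (-(l * m / 2) + l ^ 2 * m / 8)) / l) := by
        rw [Real.exp_add (l * d - 1)]
        ring
      rw [e1, div_eq_mul_inv (2 ^ m : ℝ) 2]
      refine mul_le_mul_of_nonneg_left ?_ (by positivity)
      rw [div_le_iff₀ hlpos]
      have e2 : Real.exp (l * d - 1 + (-(l * m / 2) + l ^ 2 * m / 8)) ≤
          Real.exp (-1 - Real.log m / 2) := Real.exp_le_exp.2 hexp
      have e3 : Real.exp (-1 - Real.log m / 2) = Real.exp (-1) / √(m : ℝ) := by
        rw [Real.exp_sub, Real.sqrt_eq_rpow, Real.rpow_def_of_pos hmpos]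
        congr 2
        ring
      rw [e3] at e2
      refine e2.trans ?_
      have e4 : (2 : ℝ)⁻¹ * l = √(Real.log m) / √(m : ℝ) := by
        rw [hl]
        ring
      rw [e4]
      refine div_le_div_of_nonneg_right ?_ hsm.le
      -- exp (-1) ≤ sqrt (log m)
      refine Real.le_sqrt_of_sq_le ?_
      rw [← Real.exp_nat_mul]
      have e5 : Real.exp ((2 : ℕ) * -1) ≤ 1 / 2 := by
        have := Real.add_one_le_exp (2 : ℝ)
        rw [show ((2 : ℕ) : ℝ) * -1 = -2 by norm_num, Real.exp_neg, ← one_div]
        exact one_div_le_one_div_of_le (by norm_num) (by linarith)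
      have e6 : (1 : ℝ) / 2 ≤ Real.log m := by
        have e7 : Real.log 2 ≤ Real.log m := Real.log_le_log (by norm_num) hm2
        have := Real.log_two_gt_d9
        linarith
      exact e5.trans e6
    have h8 : Real.exp (l * d - 1) / l *
        (∑ w ∈ range (m + 1), (m.choose w : ℝ) * Real.exp (-(l * w))) ≤
        Real.exp (l * d - 1) / l * (2 ^ m * Real.exp (-(l * m / 2) + l ^ 2 * m / 8)) :=
      mul_le_mul_of_nonneg_left h5 (by positivity)
    linarith
  unfold Crit
  have hfin : (d * 2 ^ m : ℕ) ≤ ∑ w ∈ range (m + 1), m.choose w * min w (d + 1) := by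
    have h9 : ((d * 2 ^ m : ℕ) : ℝ) ≤
        ((∑ w ∈ range (m + 1), m.choose w * min w (d + 1) : ℕ) : ℝ) := by
      push_cast
      linarith
    exact_mod_cast h9
  omega

theorem suffices_of_log {d m : ℕ} (h : (2 * d : ℝ) + √(m * Real.log m) ≤ m) : Suffices d m := by
  rcases Nat.eq_zero_or_pos d with rfl | hd
  · exact suffices_zero m
  · have hc := crit_of_log hd h
    have hdm : 2 * d ≤ m := by
      have := Real.sqrt_nonneg (m * Real.log m)
      have : (2 * d : ℝ) ≤ m := by linarith
      exact_mod_cast this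
    refine suffices_of_crit hd (by omega) ?_ hc
    have : d < 2 ^ d := Nat.lt_two_pow_self
    exact this.le.trans (Nat.pow_le_pow_right (by norm_num) (by omega))

end Pool.Agent.Q231.CP
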