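import Mathlib
import Pool.Agent.Q231.CP.Arith

/-!
# Three times the dimension
-/

set_option autoImplicit false
set_option linter.unusedSectionVars false

namespace Pool.Agent.Q231.CP

open Finset

theorem crit_seven : Crit 7 16 := by
  unfold Crit
  simp only [sum_range_succ, sum_range_zero]
  norm_num [Nat.choose]

theorem crit_eight : Crit 8 18 := by
  unfold Crit
  simp only [sum_range_succ, sum_range_zero]
  norm_num [Nat.choose]

theorem crit_nine : Crit 9 20 := by
  unfold Crit
  simp only [sum_range_succ, sum_range_zero]
  norm_num [Nat.choose]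

theorem crit_ten : Crit 10 22 := by
  unfold Crit
  simp only [sum_range_succ, sum_range_zero]
  norm_num [Nat.choose]

theorem crit_one : Crit 1 1 := by
  unfold Crit
  simp only [sum_range_succ, sum_range_zero]
  norm_num [Nat.choose]

/-- small dimensions -/
theorem suffices_small : Suffices 1 1 ∧ Suffices 2 4 ∧ Suffices 3 6 ∧ Suffices 4 9 ∧
    Suffices 5 11 ∧ Suffices 6 13 ∧ Suffices 7 16 ∧ Suffices 8 18 ∧ Suffices 9 20 ∧
    Suffices 10 22 :=
  ⟨suffices_of_crit (by norm_num) (by norm_num) (by norm_num) crit_one,
    suffices_of_crit (by norm_num) (by norm_num) (by norm_num) crit_two,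
    suffices_three,
    suffices_of_crit (by norm_num) (by norm_num) (by norm_num) crit_four,
    suffices_of_crit (by norm_num) (by norm_num) (by norm_num) crit_five,
    suffices_of_crit (by norm_num) (by norm_num) (by norm_num) crit_six,
    suffices_of_crit (by norm_num) (by norm_num) (by norm_num) crit_seven,
    suffices_of_crit (by norm_num) (by norm_num) (by norm_num) crit_eight,
    suffices_of_crit (by norm_num) (by norm_num) (by norm_num) crit_nine,
    suffices_of_crit (by norm_num) (by norm_num) (by norm_num) crit_ten⟩

theorem log_bound {x : ℝ} (hx : 11 ≤ x) : 3 * Real.log (3 * x) ≤ x := by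
  have h1 : Real.log (3 * x) = Real.log 33 + Real.log (x / 11) := by
    rw [← Real.log_mul (by norm_num) (by positivity)]
    congr 1
    ring
  have h2 : Real.log (x / 11) ≤ x / 11 - 1 := Real.log_le_sub_one_of_pos (by positivity)
  have h3 : Real.log 33 ≤ 18 / 5 := by
    have h4 : (5 : ℝ) * Real.log 33 = Real.log (33 ^ 5) := by
      rw [Real.log_pow]
      norm_num
    have h5 : Real.log (33 ^ 5) ≤ 18 := by
      rw [Real.log_le_iff_le_exp (by norm_num)]
      have h6 : Real.exp 18 = Real.exp 1 ^ 18 := by
        rw [← Real.exp_nat_mul]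
        norm_num
      rw [h6]
      have h7 : (2.7 : ℝ) ≤ Real.exp 1 := by
        have := Real.exp_one_gt_d9
        linarith
      calc (33 : ℝ) ^ 5 ≤ 2.7 ^ 18 := by norm_num
        _ ≤ Real.exp 1 ^ 18 := pow_le_pow_left₀ (by norm_num) h7 _
    linarith
  rw [h1]
  linarith

theorem suffices_triple (d : ℕ) : Suffices d (3 * d) := by
  obtain ⟨h1, h2, h3, h4, h5, h6, h7, h8, h9, h10⟩ := suffices_small
  by_cases hd : d ≤ 10
  · interval_cases d
    · exact suffices_zero _
    · exact suffices_mono h1 (by norm_num)
    · exact suffices_mono h2 (by norm_num)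
    · exact suffices_mono h3 (by norm_num)
    · exact suffices_mono h4 (by norm_num)
    · exact suffices_mono h5 (by norm_num)
    · exact suffices_mono h6 (by norm_num)
    · exact suffices_mono h7 (by norm_num)
    · exact suffices_mono h8 (by norm_num)
    · exact suffices_mono h9 (by norm_num)
    · exact suffices_mono h10 (by norm_num)
  · refine suffices_of_log ?_
    have hd' : (11 : ℝ) ≤ d := by
      push Not at hd
      exact_mod_cast hd
    have h := log_bound hd'
    have h' : √(((3 * d : ℕ) : ℝ) * Real.log ((3 * d : ℕ) : ℝ)) ≤ d := by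
      rw [Real.sqrt_le_left (by linarith)]
      push_cast
      nlinarith
    push_cast at h' ⊢
    linarith

end Pool.Agent.Q231.CP
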